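import Mathlib
import Pool.Agent.H181Z.IsUpper
import Pool.Agent.H181Z.IsLower
import Pool.Agent.H181Z.IsRep
import Pool.Agent.H181Z.IsExt
import Pool.Agent.H181Z.IsAvg
import Pool.Agent.H181Z.IsLoc
import Pool.Agent.H181Z.IsBall
import Pool.Agent.H181Z.IsTight
import Pool.Agent.H181Z.IsProb
import Pool.Agent.H181Z.IsCmp
import Pool.Agent.H181Z.IsShell

set_option autoImplicit false

namespace Pool.Agent.Results.MP_a763a9_pr.PressureConverges

open MeasureTheory Filter Topology Pool.Agent.H181Z.Is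

/-- The pressure of the extended Ising model converges in probability to a constant along every
locally tree-like sequence of random graphs, for all `β ≥ 0` and all real `k`, `h`. -/
theorem result (Ω : Type) [MeasurableSpace Ω] (P : Measure Ω) [IsProbabilityMeasure P]
    (G : ∀ n : ℕ, Ω → SimpleGraph (Fin n)) (hG : ∀ n g, MeasurableSet {ω | G n ω = g})
    (q : ℕ → ℝ) (m : ℝ) (hq : HasSum q 1) (hm : HasSum (fun j : ℕ => j * q j) m)
    (hlaw : ∀ j : ℕ,
      Tendsto (fun n => ∫ ω, frac (fun v => deg (G n ω) v = j) ∂P) atTop (𝓝 (q j)))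
    (hmean : Tendsto (fun n : ℕ => ∫ ω, (∑ v, (deg (G n ω) v : ℝ)) / n ∂P) atTop (𝓝 m))
    (Ω' : Type) [MeasurableSpace Ω'] (P' : Measure Ω') [IsProbabilityMeasure P']
    (V : Ω' → Type) (T : ∀ ω, SimpleGraph (V ω)) (o : ∀ ω, V ω)
    (hT : ∀ᵐ ω ∂P', (T ω).IsTree ∧ ∀ v, ((T ω).neighborSet v).Finite)
    (hloc : ∀ r : ℕ, 1 ≤ r → ∀ (l : ℕ) (H : SimpleGraph (Fin l)) (u : Fin l),
      TendstoInMeasure P (fun n ω => frac fun v => BallIso (G n ω) v r H u) atTop
        fun _ => P'.real {ω | BallIso (T ω) (o ω) r H u})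
    (β k h : ℝ) (hβ : 0 ≤ β) :
    ∃ φ : ℝ,
      TendstoInMeasure P (fun n ω => Real.log (Zext (G n ω) β k h) / n) atTop fun _ => φ :=
  thm_main (thm_cmp (thm_upper thm_fkg thm_shell) thm_rep thm_lower thm_gam thm_ext thm_round
    (thm_avg thm_gam) (thm_loc thm_gam) thm_conv thm_deg thm_good thm_wl thm_trans) thm_tight
    Ω P G hG q m hq hm hlaw hmean Ω' P' V T o hT hloc β k h hβ

end Pool.Agent.Results.MP_a763a9_pr.PressureConverges
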